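import Pool.Agent.H83.FD.AddMain

/-!
# FD AddEst: the additive zero estimate, final form
-/

set_option autoImplicit false

noncomputable section

open Polynomial Finset

namespace Pool.Agent.H83.FD

variable {F : Type*} [Field F]

/-- The Casorati determinant of independent polynomials. -/
theorem casM_one_det_ne [CharZero F] {t : ℕ} (E : Fin t → F[X]) (hE : LinearIndependent F E) :
    (casM E (fun _ => 1) (fun _ => 1) 0).det ≠ 0 := by
  intro hdet
  have hinj := IsFractionRing.injective F[X] (FractionRing F[X])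
  obtain ⟨x, hx0, hx⟩ := Matrix.exists_mulVec_eq_zero_iff.2 hdet
  have h1 : (fun κ => algebraMap F[X] (FractionRing F[X]) (x κ)) = 0 := by
    refine poly_indep E hE _ fun j hj => ?_
    have h2 := congrArg (algebraMap F[X] (FractionRing F[X])) (congrFun hx ⟨j, hj⟩)
    rw [Pi.zero_apply, map_zero, Matrix.mulVec, dotProduct, map_sum] at h2
    rw [← h2]
    refine sum_congr rfl fun κ _ => ?_
    have h3 : casM E (fun _ => 1) (fun _ => 1) 0 ⟨j, hj⟩ κ = sh ((j : ℕ) : F) (E κ) := by
      unfold casM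
      have h4 : ∀ a : F, sh a (1 : F[X]) = 1 := fun a => one_comp
      simp only [h4, prod_const_one, mul_one, zero_add]
    rw [h3, map_mul, mul_comm]
  apply hx0
  ext1 κ
  exact hinj ((congrFun h1 κ).trans (map_zero _).symm)

theorem casM_one_order {t : ℕ} (E : Fin t → F[X]) (G : Fin t → F[X]) {m w W : ℕ} (ht : 0 < t)
    (k₀ : Fin t) (hG : ¬ X ^ (w + 1) ∣ G k₀)
    (hz : ∀ a < m, X ^ W ∣ ∑ k, sh (a : F) (E k) * G k) {a : ℕ} (ha : a + t ≤ m) :
    X ^ (W - w) ∣ (casM E (fun _ => 1) (fun _ => 1) (a : F)).det := by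
  refine casM_order E (fun _ => 1) (fun _ => 1) (P := fun k _ => G k) ht (fun _ _ _ => rfl) (fun _ a _ => ?_)
    (fun _ _ => ⟨k₀, hG⟩) hz ha
  rw [eval_one]
  exact one_ne_zero

/-- THE ADDITIVE ZERO ESTIMATE. -/
theorem add_est [CharZero F] {w n d m W : ℕ} {ι : Type*} [Fintype ι] [DecidableEq ι] (Ce : Fin w → F[X])
    (B : ι → F[X]) (hC : ∀ e, (Ce e).natDegree < n) (hB : ∀ c, (B c).natDegree < n) (num den : ι → F[X])
    (hnd : ∀ c, (num c).natDegree ≤ d) (hdd : ∀ c, (den c).natDegree ≤ d) (hden : ∀ c, den c ≠ 0)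
    (R : ι → ℕ → PowerSeries F)
    (hR : ∀ c a, a + 1 < m → kp F (sh (a : F) (den c)) * (R c (a + 1) - R c a) = kp F (sh (a : F) (num c)))
    (hind : ∀ β : ι → F, (∃ y : FractionRing F[X], shK F y - y =
      ∑ c, algebraMap F[X] (FractionRing F[X]) (C (β c)) *
        (algebraMap F[X] (FractionRing F[X]) (num c) / algebraMap F[X] (FractionRing F[X]) (den c))) → β = 0)
    (hz : ∀ a < m, (PowerSeries.X : PowerSeries F) ^ W ∣
      ∑ e, kp F (sh (a : F) (Ce e)) * PowerSeries.X ^ (e : ℕ) + ∑ c, kp F (sh (a : F) (B c)) * R c a)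
    (hcount : (w + Fintype.card ι + 1) * (n - 1) + (w + Fintype.card ι) * Fintype.card ι * d <
      (m - (w + Fintype.card ι)) * (W - w)) :
    (∀ e, Ce e = 0) ∧ ∀ c, B c = 0 := by
  classical
  set V := Submodule.span F (Set.range (Sum.elim Ce B)) with hV
  have hfin : Module.Finite F V := Module.Finite.span_of_finite F (Set.finite_range _)
  have hfr : Module.finrank F V ≤ w + Fintype.card ι := by
    have h1 := finrank_range_le_card (R := F) (Sum.elim Ce B)
    rw [Fintype.card_sum, Fintype.card_fin] at h1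
    exact h1
  set t := Module.finrank F V with ht
  set b : Module.Basis (Fin t) F V := Module.finBasis F V with hb
  set E : Fin t → F[X] := fun k => (b k : F[X]) with hE
  have hEi : LinearIndependent F E := b.linearIndependent.map' V.subtype (Submodule.ker_subtype V)
  have hmC : ∀ e, Ce e ∈ V := fun e => Submodule.subset_span ⟨Sum.inl e, rfl⟩
  have hmB : ∀ c, B c ∈ V := fun c => Submodule.subset_span ⟨Sum.inr c, rfl⟩
  have hdegP : ∀ P : F[X], P.natDegree < n → P ∈ degreeLT F n := by
    intro P hP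
    rw [mem_degreeLT]
    exact degree_le_natDegree.trans_lt (by exact_mod_cast hP)
  have hVd : V ≤ degreeLT F n := by
    rw [hV, Submodule.span_le]
    rintro _ ⟨i, rfl⟩
    rcases i with e | c
    · exact hdegP _ (hC e)
    · exact hdegP _ (hB c)
  have hEd : ∀ k, (E k).natDegree < n := by
    intro k
    have h1 := mem_degreeLT.1 (hVd (b k).2)
    exact (natDegree_lt_iff_degree_lt (hEi.ne_zero k)).2 h1
  set α : Fin t → Fin w → F := fun k e => b.repr ⟨Ce e, hmC e⟩ k with hα
  set β : Fin t → ι → F := fun k c => b.repr ⟨B c, hmB c⟩ k with hβ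
  have hCe : ∀ e, Ce e = ∑ k, C (α k e) * E k := by
    intro e
    have h1 := congrArg (fun v : V => (v : F[X])) (b.sum_repr ⟨Ce e, hmC e⟩)
    simp only [Submodule.coe_sum, Submodule.coe_smul] at h1
    rw [← h1]
    exact sum_congr rfl fun k _ => smul_eq_C_mul _
  have hBe : ∀ c, B c = ∑ k, C (β k c) * E k := by
    intro c
    have h1 := congrArg (fun v : V => (v : F[X])) (b.sum_repr ⟨B c, hmB c⟩)
    simp only [Submodule.coe_sum, Submodule.coe_smul] at h1
    rw [← h1]
    exact sum_congr rfl fun k _ => smul_eq_C_mul _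
  set G : Fin t → F[X] := fun k => ∑ e, C (α k e) * X ^ (e : ℕ) with hG
  have hz' : ∀ a < m, (PowerSeries.X : PowerSeries F) ^ W ∣
      ∑ k, kp F (sh (a : F) (E k)) * (kp F (G k) + ∑ c, kp F (C (β k c)) * R c a) := by
    intro a ha
    have h1 : ∑ k, kp F (sh (a : F) (E k)) * (kp F (G k) + ∑ c, kp F (C (β k c)) * R c a) =
        ∑ e, kp F (sh (a : F) (Ce e)) * PowerSeries.X ^ (e : ℕ) + ∑ c, kp F (sh (a : F) (B c)) * R c a := by
      have h2 : ∀ e, kp F (sh (a : F) (Ce e)) * PowerSeries.X ^ (e : ℕ) =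
          ∑ k, kp F (sh (a : F) (E k)) * (kp F (C (α k e)) * PowerSeries.X ^ (e : ℕ)) := by
        intro e
        rw [hCe e, sh_sum, map_sum, sum_mul]
        refine sum_congr rfl fun k _ => ?_
        rw [sh_mul, sh_C, map_mul]
        ring
      have h3 : ∀ c, kp F (sh (a : F) (B c)) * R c a =
          ∑ k, kp F (sh (a : F) (E k)) * (kp F (C (β k c)) * R c a) := by
        intro c
        rw [hBe c, sh_sum, map_sum, sum_mul]
        refine sum_congr rfl fun k _ => ?_
        rw [sh_mul, sh_C, map_mul]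
        ring
      rw [sum_congr rfl fun e _ => h2 e, sum_congr rfl fun c _ => h3 c, sum_comm, sum_comm (s := (univ : Finset ι)),
        ← sum_add_distrib]
      refine sum_congr rfl fun k _ => ?_
      rw [← mul_sum, ← mul_sum, ← mul_add]
      congr 2
      simp only [hG]
      rw [map_sum]
      refine sum_congr rfl fun e _ => ?_
      rw [map_mul, map_pow]
      congr 2
      rw [kp_apply, coe_X]
    rw [h1]
    exact hz a ha
  have hcount1 : (t + 1) * (n - 1) + t * Fintype.card ι * d < (m - t) * W := by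
    calc (t + 1) * (n - 1) + t * Fintype.card ι * d
        ≤ (w + Fintype.card ι + 1) * (n - 1) + (w + Fintype.card ι) * Fintype.card ι * d :=
          Nat.add_le_add (Nat.mul_le_mul_right _ (by omega)) (Nat.mul_le_mul_right _ (Nat.mul_le_mul_right _ hfr))
      _ < (m - (w + Fintype.card ι)) * (W - w) := hcount
      _ ≤ (m - t) * W := Nat.mul_le_mul (by omega) (by omega)
  have hdet := bM_zero E β num den R hEd hnd hdd hR (fun k => kp F (G k)) hz' hcount1
  have hβ0 : ∀ k, β k = 0 := fun k => hind _ (tele_of_det E β num den hEi hden hdet k)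
  have hB0 : ∀ c, B c = 0 := by
    intro c
    rw [hBe c]
    refine sum_eq_zero fun k _ => ?_
    rw [congrFun (hβ0 k) c, Pi.zero_apply, C_0, zero_mul]
  refine ⟨?_, hB0⟩
  rcases Nat.eq_zero_or_pos t with ht0 | htpos
  · intro e
    rw [hCe e]
    refine sum_eq_zero fun k _ => ?_
    exact absurd k.isLt (by omega)
  exfalso
  set k₀ : Fin t := ⟨0, htpos⟩ with hk₀
  obtain ⟨e₀, he₀⟩ : ∃ e, α k₀ e ≠ 0 := by
    by_contra hcon
    push Not at hcon
    have h1 : V ≤ (LinearMap.ker (b.coord k₀)).map V.subtype := by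
      conv_lhs => rw [hV]
      rw [Submodule.span_le]
      rintro _ ⟨i, rfl⟩
      rcases i with e | c
      · exact ⟨⟨Ce e, hmC e⟩, hcon e, rfl⟩
      · exact ⟨⟨B c, hmB c⟩, congrFun (hβ0 k₀) c, rfl⟩
    obtain ⟨v, hv, hv2⟩ := h1 (b k₀).2
    have h2 : v = b k₀ := Subtype.ext hv2
    rw [h2, SetLike.mem_coe, LinearMap.mem_ker, Module.Basis.coord_apply, Module.Basis.repr_self,
      Finsupp.single_eq_same] at hv
    exact one_ne_zero hv
  have hw := e₀.isLt
  have hGn : ¬ X ^ ((w - 1) + 1) ∣ G k₀ := by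
    rw [X_pow_dvd_iff]
    push Not
    refine ⟨e₀, by omega, ?_⟩
    simp only [hG]
    rw [finsetSum_coeff, sum_eq_single e₀]
    · rw [coeff_C_mul, coeff_X_pow, if_pos rfl, mul_one]
      exact he₀
    · intro e _ he
      rw [coeff_C_mul, coeff_X_pow, if_neg fun h => he (Fin.ext h.symm), mul_zero]
    · exact fun h => absurd (mem_univ _) h
  have hz2 : ∀ a < m, X ^ W ∣ ∑ k, sh (a : F) (E k) * G k := by
    intro a ha
    apply kp_dvd
    have h1 := hz' a ha
    have h2 : ∑ k, kp F (sh (a : F) (E k)) * (kp F (G k) + ∑ c, kp F (C (β k c)) * R c a) =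
        kp F (∑ k, sh (a : F) (E k) * G k) := by
      rw [map_sum]
      refine sum_congr rfl fun k _ => ?_
      have h3 : ∑ c, kp F (C (β k c)) * R c a = 0 := by
        refine sum_eq_zero fun c _ => ?_
        rw [congrFun (hβ0 k) c, Pi.zero_apply, C_0, map_zero, zero_mul]
      rw [h3, add_zero, map_mul]
    rw [h2] at h1
    exact h1
  set D := (casM E (fun _ => 1) (fun _ => 1) 0).det with hD
  have hD0 : D ≠ 0 := casM_one_det_ne E hEi
  have h1 : ∀ a ∈ range (m + 1 - t), W - (w - 1) ≤ D.roots.count (a : F) := by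
    intro a ha
    rw [mem_range] at ha
    rw [count_roots, le_rootMultiplicity_iff hD0]
    have h2 := casM_one_order E G htpos k₀ hGn hz2 (a := a) (by omega)
    rw [← casM_comp, ← hD] at h2
    obtain ⟨q, hq⟩ := h2
    have h4 : (D.comp (X + C (a : F))).comp (X + C (-(a : F))) = D := by
      rw [comp_add_comp, neg_add_cancel, C_0, add_zero, comp_X]
    rw [hq, mul_comp, pow_comp, X_comp, C_neg, ← sub_eq_add_neg] at h4
    exact ⟨_, h4.symm⟩
  have h5 : (m + 1 - t) * (W - (w - 1)) ≤ D.natDegree := by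
    calc (m + 1 - t) * (W - (w - 1)) = ∑ _a ∈ range (m + 1 - t), (W - (w - 1)) := by
          rw [sum_const, card_range, smul_eq_mul]
      _ ≤ ∑ a ∈ range (m + 1 - t), D.roots.count (a : F) := sum_le_sum h1
      _ = ∑ x ∈ (range (m + 1 - t)).map ⟨fun a : ℕ => (a : F), Nat.cast_injective⟩, D.roots.count x := by
          rw [sum_map]
          rfl
      _ ≤ D.roots.card := sum_count_le _
      _ ≤ D.natDegree := card_roots' D
  have h6 := casM_deg E (fun _ => 1) (fun _ => 1) (n0 := n) (d := 0) hEd (fun _ => by rw [natDegree_one])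
    (fun _ => by rw [natDegree_one])
  rw [← hD, mul_zero, add_zero] at h6
  have h7 : t * (n - 1) < (m + 1 - t) * (W - (w - 1)) := by
    calc t * (n - 1) ≤ (w + Fintype.card ι + 1) * (n - 1) := Nat.mul_le_mul_right _ (by omega)
      _ ≤ (w + Fintype.card ι + 1) * (n - 1) + (w + Fintype.card ι) * Fintype.card ι * d := Nat.le_add_right _ _
      _ < (m - (w + Fintype.card ι)) * (W - w) := hcount
      _ ≤ (m + 1 - t) * (W - (w - 1)) := Nat.mul_le_mul (by omega) (by omega)
  omega

end Pool.Agent.H83.FD
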