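import Pool.Agent.H83.FD.Cas

/-!
# FD Zero: the zero estimate for finitely many hypergeometric terms

`cosN c P`: the number of roots (with multiplicity) of the polynomial `P` in the coset `c + ℤ`.
`zero_est`: polynomials `A κ` (not all zero) and local solutions `P κ a` (`a` a node, variable `X` the local coordinate) of
`v κ (a + y) P κ (a + 1) (y) = u κ (a + y) P κ a (y)`.  If the quotients `u κ / v κ` are pairwise not similar (condition on
`cosN`) the expressions `Σ A κ (a + y) P κ a (y)` can not all vanish to the order `e` at `L` nodes.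
-/

set_option autoImplicit false

noncomputable section

open Polynomial Finset

namespace Pool.Agent.H83.FD

variable {F : Type*} [Field F]

open Classical in
/-- The number of roots in the coset `c + ℤ`. -/
def cosN (c : F) (P : F[X]) : ℕ := Multiset.countP (fun z => ∃ n : ℤ, z = c + n) P.roots

theorem cosN_mul (c : F) {P Q : F[X]} (hP : P ≠ 0) (hQ : Q ≠ 0) : cosN c (P * Q) = cosN c P + cosN c Q := by
  classical
  unfold cosN
  rw [roots_mul (mul_ne_zero hP hQ), Multiset.countP_add]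

theorem cosN_one (c : F) : cosN c (1 : F[X]) = 0 := by
  unfold cosN
  simp

theorem cosN_prod {ι : Type*} (c : F) (s : Finset ι) {P : ι → F[X]} (hP : ∀ i ∈ s, P i ≠ 0) :
    cosN c (∏ i ∈ s, P i) = ∑ i ∈ s, cosN c (P i) := by
  classical
  induction s using Finset.induction_on with
  | empty => simp [cosN_one]
  | insert i s hi ih =>
    rw [prod_insert hi, sum_insert hi, cosN_mul c (hP i (mem_insert_self i s))
      (prod_ne_zero_iff.2 fun j hj => hP j (mem_insert_of_mem hj)), ih fun j hj => hP j (mem_insert_of_mem hj)]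

open Classical in
/-- A linear factor. -/
theorem cosN_linear (c : F) {a b : F} (ha : a ≠ 0) : cosN c (C a * X + C b : F[X]) =
    if ∃ n : ℤ, -(a⁻¹ * b) = c + n then 1 else 0 := by
  unfold cosN
  rw [roots_C_mul_X_add_C _ ha]
  split_ifs with h
  · rw [Multiset.countP_eq_card.2 (by simpa using h)]
    rfl
  · rw [Multiset.countP_eq_zero.2 (by simpa using h)]

theorem cosN_shift (c : F) (P : F[X]) : cosN c (P.comp (X + C 1)) = cosN c P := by
  classical
  have h := map_roots_comp_C_mul_X_add_C P 1 1 isUnit_one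
  rw [C_1, one_mul] at h
  unfold cosN
  rw [← h, Multiset.countP_map, ← Multiset.countP_eq_card_filter, C_1]
  refine Multiset.countP_congr rfl fun z _ => propext ?_
  constructor
  · rintro ⟨n, hn⟩
    exact ⟨n + 1, by rw [hn]; push_cast; ring⟩
  · rintro ⟨n, hn⟩
    exact ⟨n - 1, by push_cast; linear_combination hn⟩

/-- The shift `X ↦ X + 1`. -/
def shE (F : Type*) [Field F] : F[X] ≃+* F[X] := (algEquivAevalXAddC (1 : F)).toRingEquiv

theorem shE_apply (P : F[X]) : shE F P = P.comp (X + C 1) := by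
  show (algEquivAevalXAddC (1 : F)) P = _
  rw [algEquivAevalXAddC, algEquivOfCompEqX_apply, aeval_def, comp]
  rfl

/-- The shift on rational functions. -/
def shK (F : Type*) [Field F] : FractionRing F[X] ≃+* FractionRing F[X] :=
  IsFractionRing.ringEquivOfRingEquiv (shE F)

theorem shK_map (P : F[X]) : shK F (algebraMap F[X] (FractionRing F[X]) P) =
    algebraMap F[X] (FractionRing F[X]) (P.comp (X + C 1)) := by
  rw [shK, IsFractionRing.ringEquivOfRingEquiv_algebraMap, shE_apply]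

theorem comp_add_comp (P : F[X]) (a b : F) : (P.comp (X + C a)).comp (X + C b) = P.comp (X + C (b + a)) := by
  rw [comp_assoc]
  congr 1
  simp only [add_comp, X_comp, C_comp, C_add]
  ring

theorem comp_ne_zero' {P : F[X]} (hP : P ≠ 0) (a : F) : P.comp (X + C a) ≠ 0 := by
  intro h
  apply hP
  have h1 := comp_add_comp P a (-a)
  rw [h, zero_comp, neg_add_cancel, C_0, add_zero, comp_X] at h1
  exact h1.symm

/-- Different numbers of roots in a coset: not similar. -/
theorem not_sim {u v u' v' : F[X]} (hu : u ≠ 0) (hv : v ≠ 0) (hu' : u' ≠ 0) (hv' : v' ≠ 0) (c : F)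
    (hc : cosN c u + cosN c v' ≠ cosN c v + cosN c u') (h : FractionRing F[X]) (hh : h ≠ 0) :
    (algebraMap F[X] (FractionRing F[X]) u / algebraMap F[X] (FractionRing F[X]) v) * h ≠
      (algebraMap F[X] (FractionRing F[X]) u' / algebraMap F[X] (FractionRing F[X]) v') * shK F h := by
  intro he
  obtain ⟨p, q, hq, rfl⟩ := IsFractionRing.div_surjective (A := F[X]) h
  have hq0 : q ≠ 0 := nonZeroDivisors.ne_zero hq
  have hp0 : p ≠ 0 := by
    rintro rfl
    rw [map_zero, zero_div] at hh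
    exact hh rfl
  have hinj := IsFractionRing.injective F[X] (FractionRing F[X])
  have hne : ∀ P : F[X], P ≠ 0 → algebraMap F[X] (FractionRing F[X]) P ≠ 0 := fun P hP h0 =>
    hP (hinj (h0.trans (map_zero _).symm))
  have hsp := comp_ne_zero' hp0 1
  have hsq := comp_ne_zero' hq0 1
  rw [map_div₀, shK_map, shK_map] at he
  have h1 := hne _ hv
  have h2 := hne _ hv'
  have h3 := hne _ hq0
  have h4 := hne _ hsq
  rw [div_mul_div_comm, div_mul_div_comm, div_eq_div_iff (mul_ne_zero h1 h3) (mul_ne_zero h2 h4), ← map_mul, ← map_mul,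
    ← map_mul, ← map_mul, ← map_mul, ← map_mul] at he
  have h5 := congrArg (cosN c) (hinj he)
  rw [cosN_mul c (mul_ne_zero hu hp0) (mul_ne_zero hv' hsq), cosN_mul c hu hp0, cosN_mul c hv' hsq,
    cosN_mul c (mul_ne_zero hu' hsp) (mul_ne_zero hv hq0), cosN_mul c hu' hsp, cosN_mul c hv hq0, cosN_shift,
    cosN_shift] at h5
  omega

/-! ### The Casorati matrix over the polynomials -/

section Mat

variable {m : ℕ} (A u v : Fin m → F[X])

/-- The shift by `a`. -/
def sh (a : F) (P : F[X]) : F[X] := P.comp (X + C a)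

theorem sh_sh (P : F[X]) (a b : F) : sh b (sh a P) = sh (b + a) P := comp_add_comp P a b

theorem sh_mul (P Q : F[X]) (a : F) : sh a (P * Q) = sh a P * sh a Q := mul_comp _ _ _

theorem sh_prod {ι : Type*} (s : Finset ι) (P : ι → F[X]) (a : F) : sh a (∏ i ∈ s, P i) = ∏ i ∈ s, sh a (P i) := by
  unfold sh
  exact prod_comp _ _ _

theorem sh_ne {P : F[X]} (hP : P ≠ 0) (a : F) : sh a P ≠ 0 := comp_ne_zero' hP a

theorem sh_deg (P : F[X]) (a : F) : (sh a P).natDegree = P.natDegree := by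
  rw [sh, natDegree_comp, natDegree_X_add_C, mul_one]

/-- The Casorati matrix with polynomial entries, at the base point `b + X`. -/
def casM (b : F) : Matrix (Fin m) (Fin m) F[X] := fun j κ =>
  sh (b + (j : ℕ)) (A κ) * ((∏ i ∈ range j, sh (b + (i : ℕ)) (u κ)) * ∏ i ∈ Ico (j : ℕ) (m - 1), sh (b + (i : ℕ)) (v κ))

theorem casM_comp (a : F) : (casM A u v 0).det.comp (X + C a) = (casM A u v a).det := by
  have h1 : (casM A u v 0).det.comp (X + C a) = (compRingHom (X + C a)) (casM A u v 0).det := rfl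
  rw [h1, RingHom.map_det]
  congr 1
  ext1 j κ
  show (casM A u v 0 j κ).comp (X + C a) = casM A u v a j κ
  show sh a (casM A u v 0 j κ) = casM A u v a j κ
  unfold casM
  rw [sh_mul, sh_mul, sh_prod, sh_prod, sh_sh, zero_add]
  simp only [sh_sh, zero_add]

theorem casM_deg {n0 d : ℕ} (hAd : ∀ κ, (A κ).natDegree < n0) (hud : ∀ κ, (u κ).natDegree ≤ d)
    (hvd : ∀ κ, (v κ).natDegree ≤ d) : (casM A u v 0).det.natDegree ≤ m * (n0 - 1 + (m - 1) * d) := by
  have he : ∀ j κ, (casM A u v 0 j κ).natDegree ≤ n0 - 1 + (m - 1) * d := by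
    intro j κ
    have hj : (j : ℕ) ≤ m - 1 := by have := j.isLt; omega
    have h1 : (∏ i ∈ range (j : ℕ), sh ((0 : F) + (i : ℕ)) (u κ)).natDegree ≤ (j : ℕ) * d := by
      refine (natDegree_prod_le _ _).trans ?_
      refine (sum_le_card_nsmul _ _ d fun i _ => ?_).trans (by rw [card_range, smul_eq_mul])
      rw [sh_deg]
      exact hud κ
    have h2 : (∏ i ∈ Ico (j : ℕ) (m - 1), sh ((0 : F) + (i : ℕ)) (v κ)).natDegree ≤ (m - 1 - j) * d := by
      refine (natDegree_prod_le _ _).trans ?_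
      refine (sum_le_card_nsmul _ _ d fun i _ => ?_).trans (by rw [Nat.card_Ico, smul_eq_mul])
      rw [sh_deg]
      exact hvd κ
    have h3 : (j : ℕ) * d + (m - 1 - j) * d = (m - 1) * d := by
      rw [← add_mul]
      congr 1
      omega
    unfold casM
    refine natDegree_mul_le.trans ?_
    have h4 := (natDegree_mul_le (p := ∏ i ∈ range (j : ℕ), sh ((0 : F) + (i : ℕ)) (u κ))
      (q := ∏ i ∈ Ico (j : ℕ) (m - 1), sh ((0 : F) + (i : ℕ)) (v κ)))
    rw [sh_deg]
    have := hAd κ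
    omega
  rw [Matrix.det_apply]
  refine natDegree_sum_le_of_forall_le _ _ fun σ _ => ?_
  refine (natDegree_smul_le _ _).trans ?_
  refine (natDegree_prod_le _ _).trans ?_
  refine (sum_le_card_nsmul _ _ _ fun i _ => ?_).trans (by rw [card_univ, Fintype.card_fin, smul_eq_mul])
  exact he _ _

/-- The Casorati determinant is not zero when the terms are pairwise not similar. -/
theorem casM_det_ne (hA : ∀ κ, A κ ≠ 0) (hu : ∀ κ, u κ ≠ 0) (hv : ∀ κ, v κ ≠ 0)
    (hs : ∀ κ κ', κ ≠ κ' → ∃ c : F, cosN c (u κ) + cosN c (v κ') ≠ cosN c (v κ) + cosN c (u κ')) :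
    (casM A u v 0).det ≠ 0 := by
  intro hdet
  obtain ⟨x, hx0, hx⟩ := Matrix.exists_mulVec_eq_zero_iff.2 hdet
  have hinj := IsFractionRing.injective F[X] (FractionRing F[X])
  have hne : ∀ P : F[X], P ≠ 0 → algebraMap F[X] (FractionRing F[X]) P ≠ 0 := fun P hP h0 =>
    hP (hinj (h0.trans (map_zero _).symm))
  -- the entries in the field
  have hW : ∀ (κ : Fin m) (j : ℕ), casW (shK F) (algebraMap F[X] (FractionRing F[X]) (A κ))
      (algebraMap F[X] (FractionRing F[X]) (u κ) / algebraMap F[X] (FractionRing F[X]) (v κ)) j *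
        algebraMap F[X] (FractionRing F[X]) (∏ i ∈ range j, sh ((0 : F) + (i : ℕ)) (v κ)) =
      algebraMap F[X] (FractionRing F[X]) (sh ((0 : F) + (j : ℕ)) (A κ) * ∏ i ∈ range j, sh ((0 : F) + (i : ℕ)) (u κ)) := by
    intro κ j
    induction j with
    | zero =>
      rw [casW_zero, range_zero, prod_empty, prod_empty, map_one, mul_one, mul_one, Nat.cast_zero, add_zero, sh, C_0,
        add_zero, comp_X]
    | succ j ih =>
      have h1 := congrArg (shK F) ih
      have h2 : ∀ (P : F[X]) (b : F), (sh b P).comp (X + C 1) = sh (1 + b) P := fun P b => comp_add_comp P b 1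
      have h3 : ∀ P : F[X], (∏ i ∈ range j, sh ((0 : F) + (i : ℕ)) P).comp (X + C 1) =
          ∏ i ∈ range j, sh ((0 : F) + ((i + 1 : ℕ) : F)) P := by
        intro P
        rw [Polynomial.prod_comp]
        refine prod_congr rfl fun i _ => ?_
        rw [h2]
        congr 1
        push_cast
        ring
      rw [map_mul, shK_map, shK_map, h3, mul_comp, h3, h2] at h1
      have h4 : (1 : F) + (0 + (j : ℕ)) = 0 + ((j + 1 : ℕ) : F) := by
        push_cast
        ring
      rw [h4] at h1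
      have h5 : ∀ P : F[X], ∏ i ∈ range (j + 1), sh ((0 : F) + (i : ℕ)) P =
          P * ∏ i ∈ range j, sh ((0 : F) + ((i + 1 : ℕ) : F)) P := by
        intro P
        rw [prod_range_succ', mul_comm]
        congr 1
        rw [Nat.cast_zero, add_zero, sh, C_0, add_zero, comp_X]
      rw [casW_succ, h5, h5, map_mul, map_mul, map_mul]
      rw [map_mul] at h1
      have h6 := hne _ (hv κ)
      field_simp
      linear_combination (algebraMap F[X] (FractionRing F[X]) (u κ)) * h1
  have hVne : ∀ κ : Fin m, algebraMap F[X] (FractionRing F[X]) (∏ i ∈ range (m - 1), sh ((0 : F) + (i : ℕ)) (v κ)) ≠ 0 :=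
    fun κ => hne _ (prod_ne_zero_iff.2 fun i _ => sh_ne (hv κ) _)
  have hind := cas_indep (shK F) (fun κ : Fin m => algebraMap F[X] (FractionRing F[X]) (A κ))
    (fun κ : Fin m => algebraMap F[X] (FractionRing F[X]) (u κ) / algebraMap F[X] (FractionRing F[X]) (v κ)) univ
    (fun κ _ => hne _ (hA κ)) (fun κ _ => div_ne_zero (hne _ (hu κ)) (hne _ (hv κ)))
    (fun κ _ κ' _ hκ h hh => by
      obtain ⟨c, hc⟩ := hs κ κ' hκ
      exact not_sim (hu κ) (hv κ) (hu κ') (hv κ') c hc h hh)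
    (fun κ => algebraMap F[X] (FractionRing F[X]) (x κ) *
      algebraMap F[X] (FractionRing F[X]) (∏ i ∈ range (m - 1), sh ((0 : F) + (i : ℕ)) (v κ))) (by
      intro j hj
      rw [card_univ, Fintype.card_fin] at hj
      have h1 := congrArg (algebraMap F[X] (FractionRing F[X])) (congrFun hx ⟨j, hj⟩)
      rw [Pi.zero_apply, map_zero, Matrix.mulVec, dotProduct, map_sum] at h1
      rw [← h1]
      refine sum_congr rfl fun κ _ => ?_
      have h2 := hW κ j
      have h3 : ∏ i ∈ range (m - 1), sh ((0 : F) + (i : ℕ)) (v κ) =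
          (∏ i ∈ range j, sh ((0 : F) + (i : ℕ)) (v κ)) * ∏ i ∈ Ico j (m - 1), sh ((0 : F) + (i : ℕ)) (v κ) :=
        (prod_range_mul_prod_Ico _ (by omega)).symm
      rw [h3, map_mul, map_mul]
      show _ = algebraMap F[X] (FractionRing F[X]) (casM A u v 0 ⟨j, hj⟩ κ) * _
      have h4 : algebraMap F[X] (FractionRing F[X]) (casM A u v 0 ⟨j, hj⟩ κ) =
          algebraMap F[X] (FractionRing F[X]) (sh ((0 : F) + (j : ℕ)) (A κ) * ∏ i ∈ range j, sh ((0 : F) + (i : ℕ)) (u κ)) *
            algebraMap F[X] (FractionRing F[X]) (∏ i ∈ Ico j (m - 1), sh ((0 : F) + (i : ℕ)) (v κ)) := by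
        rw [← map_mul]
        congr 1
        unfold casM
        ring
      rw [h4, ← h2]
      ring)
  apply hx0
  ext1 κ
  have h1 := (mul_eq_zero.1 (hind κ (mem_univ κ))).resolve_right (hVne κ)
  exact hinj (h1.trans (map_zero _).symm)

/-- The local relation, `j` steps. -/
theorem rel_iter {P : ℕ → F[X]} {u v : F[X]} {L : ℕ}
    (hrel : ∀ a, a + 1 < L → sh (a : F) v * P (a + 1) = sh (a : F) u * P a) (a j : ℕ) (hj : a + j < L) :
    (∏ i ∈ range j, sh ((a : F) + (i : ℕ)) v) * P (a + j) = (∏ i ∈ range j, sh ((a : F) + (i : ℕ)) u) * P a := by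
  induction j with
  | zero => simp
  | succ j ih =>
    have h1 := ih (by omega)
    have h2 := hrel (a + j) (by omega)
    rw [prod_range_succ, prod_range_succ]
    push_cast at h2
    rw [← add_assoc]
    linear_combination (∏ i ∈ range j, sh ((a : F) + (i : ℕ)) v) * h2 + sh ((a : F) + (j : ℕ)) u * h1

theorem dvd_of_unit {e w : ℕ} {D p q : F[X]} (h : X ^ e ∣ D * (p * q)) (hp : ¬ X ^ (w + 1) ∣ p) (hq : q.eval 0 ≠ 0) :
    X ^ (e - w) ∣ D := by
  rcases eq_or_ne D 0 with rfl | hD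
  · exact dvd_zero _
  have hp0 : p ≠ 0 := by
    rintro rfl
    exact hp (dvd_zero _)
  have hq0 : q ≠ 0 := by
    rintro rfl
    rw [eval_zero] at hq
    exact hq rfl
  have hX : ∀ (n : ℕ) (Q : F[X]), Q ≠ 0 → (X ^ n ∣ Q ↔ n ≤ Q.rootMultiplicity 0) := by
    intro n Q hQ
    rw [le_rootMultiplicity_iff hQ, C_0, sub_zero]
  rw [hX _ _ (mul_ne_zero hD (mul_ne_zero hp0 hq0)), rootMultiplicity_mul (mul_ne_zero hD (mul_ne_zero hp0 hq0)),
    rootMultiplicity_mul (mul_ne_zero hp0 hq0), rootMultiplicity_eq_zero (p := q) (by rwa [IsRoot.def])] at h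
  rw [hX _ _ hp0] at hp
  rw [hX _ _ hD]
  omega

/-- Vanishing of the Casorati determinant at the node `a`. -/
theorem casM_order {P : Fin m → ℕ → F[X]} {L e w : ℕ} (hm : 0 < m)
    (hrel : ∀ κ a, a + 1 < L → sh (a : F) (v κ) * P κ (a + 1) = sh (a : F) (u κ) * P κ a)
    (hv0 : ∀ κ a, a + 1 < L → (v κ).eval (a : F) ≠ 0)
    (hP : ∀ a < L, ∃ κ, ¬ X ^ (w + 1) ∣ P κ a)
    (hz : ∀ a < L, X ^ e ∣ ∑ κ, sh (a : F) (A κ) * P κ a) {a : ℕ} (ha : a + m ≤ L) :
    X ^ (e - w) ∣ (casM A u v (a : F)).det := by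
  classical
  obtain ⟨κ₀, hκ₀⟩ := hP a (by omega)
  set V : Fin m → F[X] := fun κ => ∏ i ∈ range (m - 1), sh ((a : F) + (i : ℕ)) (v κ) with hV
  set t : Fin m → F[X] := fun κ => P κ a * ∏ κ' ∈ univ.erase κ, V κ' with ht
  have hent : ∀ j κ, casM A u v (a : F) j κ * P κ a =
      V κ * (sh ((a + (j : ℕ) : ℕ) : F) (A κ) * P κ (a + j)) := by
    intro j κ
    have hj := j.isLt
    have h1 := rel_iter (hrel κ) a j (by omega)
    have h3 : V κ = (∏ i ∈ range (j : ℕ), sh ((a : F) + (i : ℕ)) (v κ)) *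
        ∏ i ∈ Ico (j : ℕ) (m - 1), sh ((a : F) + (i : ℕ)) (v κ) := (prod_range_mul_prod_Ico _ (by omega)).symm
    rw [h3]
    unfold casM
    push_cast
    linear_combination (-(sh ((a : F) + (j : ℕ)) (A κ) * ∏ i ∈ Ico (j : ℕ) (m - 1), sh ((a : F) + (i : ℕ)) (v κ))) * h1
  have hrow : ∀ j, X ^ e ∣ (casM A u v (a : F)).mulVec t j := by
    intro j
    have hj := j.isLt
    have h1 : (casM A u v (a : F)).mulVec t j = (∏ κ, V κ) * ∑ κ, sh ((a + (j : ℕ) : ℕ) : F) (A κ) * P κ (a + j) := by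
      rw [Matrix.mulVec, dotProduct, mul_sum]
      refine sum_congr rfl fun κ _ => ?_
      have h2 := hent j κ
      have h3 : ∏ κ', V κ' = V κ * ∏ κ' ∈ univ.erase κ, V κ' := (mul_prod_erase univ V (mem_univ κ)).symm
      rw [h3]
      simp only [ht]
      linear_combination (∏ κ' ∈ univ.erase κ, V κ') * h2
    rw [h1]
    exact (hz (a + j) (by omega)).mul_left _
  have hdet : X ^ e ∣ (casM A u v (a : F)).det * (P κ₀ a * ∏ κ' ∈ univ.erase κ₀, V κ') := by
    have h1 : (casM A u v (a : F)).det * t κ₀ =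
        ∑ j, (casM A u v (a : F)).adjugate κ₀ j * (casM A u v (a : F)).mulVec t j := by
      have h2 : (casM A u v (a : F)).adjugate.mulVec ((casM A u v (a : F)).mulVec t) κ₀ =
          (casM A u v (a : F)).det * t κ₀ := by
        rw [Matrix.mulVec_mulVec, Matrix.adjugate_mul, Matrix.smul_mulVec, Matrix.one_mulVec]
        rfl
      rw [← h2]
      rfl
    show X ^ e ∣ (casM A u v (a : F)).det * t κ₀
    rw [h1]
    exact dvd_sum fun j _ => (hrow j).mul_left _
  refine dvd_of_unit hdet hκ₀ ?_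
  rw [eval_prod, prod_ne_zero_iff]
  intro κ' _
  simp only [hV]
  rw [eval_prod, prod_ne_zero_iff]
  intro i hi
  rw [mem_range] at hi
  have h1 := hv0 κ' (a + i) (by omega)
  rw [sh, eval_comp, eval_add, eval_X, eval_C, zero_add]
  push_cast at h1
  exact h1

omit [Field F] in
theorem sum_count_le {T : Finset F} [DecidableEq F] (s : Multiset F) : ∑ x ∈ T, s.count x ≤ s.card := by
  induction s using Multiset.induction_on with
  | empty => simp
  | cons a s ih =>
    have h1 : ∀ x, (a ::ₘ s).count x = s.count x + if x = a then 1 else 0 := by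
      intro x
      rw [Multiset.count_cons]
    simp only [h1, sum_add_distrib, Multiset.card_cons]
    have h2 : ∑ x ∈ T, (if x = a then 1 else 0) ≤ 1 := by
      rw [sum_ite_eq']
      split_ifs <;> omega
    omega

/-- The zero estimate, index set `Fin m`, all polynomials different from zero. -/
theorem zero_est_fin [CharZero F] {P : Fin m → ℕ → F[X]} {L e w n0 d : ℕ} (hm : 0 < m)
    (hA : ∀ κ, A κ ≠ 0) (hAd : ∀ κ, (A κ).natDegree < n0)
    (hu : ∀ κ, u κ ≠ 0) (hud : ∀ κ, (u κ).natDegree ≤ d) (hv : ∀ κ, v κ ≠ 0) (hvd : ∀ κ, (v κ).natDegree ≤ d)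
    (hrel : ∀ κ a, a + 1 < L → sh (a : F) (v κ) * P κ (a + 1) = sh (a : F) (u κ) * P κ a)
    (hv0 : ∀ κ a, a + 1 < L → (v κ).eval (a : F) ≠ 0)
    (hP : ∀ a < L, ∃ κ, ¬ X ^ (w + 1) ∣ P κ a)
    (hs : ∀ κ κ', κ ≠ κ' → ∃ c : F, cosN c (u κ) + cosN c (v κ') ≠ cosN c (v κ) + cosN c (u κ'))
    (hz : ∀ a < L, X ^ e ∣ ∑ κ, sh (a : F) (A κ) * P κ a) :
    (L + 1 - m) * (e - w) ≤ m * (n0 - 1 + (m - 1) * d) := by
  classical
  set D := (casM A u v 0).det with hD
  have hD0 : D ≠ 0 := casM_det_ne A u v hA hu hv hs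
  refine le_trans ?_ (casM_deg A u v hAd hud hvd)
  rw [← hD]
  have h1 : ∀ a ∈ range (L + 1 - m), e - w ≤ D.roots.count (a : F) := by
    intro a ha
    rw [mem_range] at ha
    rw [count_roots, le_rootMultiplicity_iff hD0]
    have h2 := casM_order A u v hm hrel hv0 hP hz (a := a) (by omega)
    rw [← casM_comp, ← hD] at h2
    obtain ⟨q, hq⟩ := h2
    have h4 : (D.comp (X + C (a : F))).comp (X + C (-(a : F))) = D := by
      rw [comp_add_comp, neg_add_cancel, C_0, add_zero, comp_X]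
    rw [hq, mul_comp, pow_comp, X_comp, C_neg, ← sub_eq_add_neg] at h4
    exact ⟨_, h4.symm⟩
  calc (L + 1 - m) * (e - w) = ∑ _a ∈ range (L + 1 - m), (e - w) := by rw [sum_const, card_range, smul_eq_mul]
    _ ≤ ∑ a ∈ range (L + 1 - m), D.roots.count (a : F) := sum_le_sum h1
    _ = ∑ x ∈ (range (L + 1 - m)).map ⟨fun a : ℕ => (a : F), Nat.cast_injective⟩, D.roots.count x := by
        rw [sum_map]
        rfl
    _ ≤ D.roots.card := sum_count_le _
    _ ≤ D.natDegree := card_roots' D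

end Mat

/-- THE ZERO ESTIMATE: the expressions `Σ A κ (a + y) P κ a (y)` do not all vanish to the order `e` at the nodes `a < L`. -/
theorem zero_est [CharZero F] {ι : Type*} [Fintype ι] (A u v : ι → F[X]) (P : ι → ℕ → F[X]) {L e w n0 d S : ℕ}
    (hS : Fintype.card ι ≤ S) (hA : ∃ κ, A κ ≠ 0) (hAd : ∀ κ, (A κ).natDegree < n0)
    (hu : ∀ κ, u κ ≠ 0) (hud : ∀ κ, (u κ).natDegree ≤ d) (hv : ∀ κ, v κ ≠ 0) (hvd : ∀ κ, (v κ).natDegree ≤ d)
    (hrel : ∀ κ a, a + 1 < L → (v κ).comp (X + C (a : F)) * P κ (a + 1) = (u κ).comp (X + C (a : F)) * P κ a)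
    (hv0 : ∀ κ a, a + 1 < L → (v κ).eval (a : F) ≠ 0)
    (hP : ∀ κ, ∀ a < L, ¬ X ^ (w + 1) ∣ P κ a)
    (hs : ∀ κ κ', κ ≠ κ' → ∃ c : F, cosN c (u κ) + cosN c (v κ') ≠ cosN c (v κ) + cosN c (u κ'))
    (hcount : S * (n0 - 1 + (S - 1) * d) < (L + 1 - S) * (e - w)) :
    ∃ a < L, ∃ j < e, (∑ κ, (A κ).comp (X + C (a : F)) * P κ a).coeff j ≠ 0 := by
  classical
  by_contra hcon
  push Not at hcon
  have hz0 : ∀ a < L, X ^ e ∣ ∑ κ, (A κ).comp (X + C (a : F)) * P κ a := by
    intro a ha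
    rw [X_pow_dvd_iff]
    exact hcon a ha
  set T : Finset ι := univ.filter fun κ => A κ ≠ 0 with hT
  obtain ⟨κ₀, hκ₀⟩ := hA
  have hTpos : 0 < T.card := card_pos.2 ⟨κ₀, by rw [hT, mem_filter]; exact ⟨mem_univ _, hκ₀⟩⟩
  have hTS : T.card ≤ S := (card_le_univ T).trans hS
  set f : Fin T.card ≃ T := T.equivFin.symm with hf
  have hmem : ∀ i, A (f i) ≠ 0 := fun i => (mem_filter.1 (f i).2).2
  have hmain := zero_est_fin (F := F) (fun i => A (f i)) (fun i => u (f i)) (fun i => v (f i)) (P := fun i => P (f i))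
    (L := L) (e := e) (w := w) (n0 := n0) (d := d) hTpos hmem (fun i => hAd _) (fun i => hu _) (fun i => hud _)
    (fun i => hv _) (fun i => hvd _) (fun i a ha => hrel _ a ha) (fun i a ha => hv0 _ a ha)
    (fun a ha => ⟨⟨0, hTpos⟩, hP _ a ha⟩)
    (fun i i' hi => hs _ _ fun h => hi (f.injective (Subtype.ext h)))
    (by
      intro a ha
      have h1 : ∑ i, sh (a : F) (A (f i)) * P (f i) a = ∑ κ, (A κ).comp (X + C (a : F)) * P κ a := by
        rw [Equiv.sum_comp f (fun κ : T => sh (a : F) (A κ) * P κ a),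
          Finset.sum_coe_sort T (fun κ => sh (a : F) (A κ) * P κ a), hT, sum_filter]
        refine sum_congr rfl fun κ _ => ?_
        split_ifs with h
        · rfl
        · rw [not_ne_iff] at h
          rw [h, zero_comp, zero_mul]
      rw [h1]
      exact hz0 a ha)
  have h1 : T.card * (n0 - 1 + (T.card - 1) * d) ≤ S * (n0 - 1 + (S - 1) * d) :=
    Nat.mul_le_mul hTS (Nat.add_le_add_left (Nat.mul_le_mul_right _ (by omega)) _)
  have h2 : (L + 1 - S) * (e - w) ≤ (L + 1 - T.card) * (e - w) := Nat.mul_le_mul_right _ (by omega)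
  omega

end Pool.Agent.H83.FD
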