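import Pool.Agent.H83.FD.Zero

/-!
# FD Add: the additive zero estimate

`C e` (`e < w`), `B c` polynomials, `R c a` power series (local solutions of `h (x + 1) - h x = num c / den c` at the node `a`).
If `Σ C_e (a + y) y ^ e + Σ B_c (a + y) R_c,a (y)` vanishes to the order `W` at many nodes `a`, all `C e` and `B c` are `0`, as
soon as no nontrivial constant combination of the `num c / den c` is of the form `h (x + 1) - h x`, `h` rational.
-/

set_option autoImplicit false

noncomputable section

open Polynomial Finset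

namespace Pool.Agent.H83.FD

variable {F : Type*} [Field F]

/-! ### Constants of the shift -/

theorem shift_const [CharZero F] {q : F[X]} (h : q.comp (X + C 1) = q) : ∃ b : F, q = C b := by
  refine ⟨q.eval 0, ?_⟩
  have h1 : ∀ n : ℕ, q.eval (n : F) = q.eval 0 := by
    intro n
    induction n with
    | zero => rw [Nat.cast_zero]
    | succ n ih =>
      have h2 := congrArg (eval (n : F)) h
      rw [eval_comp, eval_add, eval_X, eval_C] at h2
      rw [Nat.cast_succ, h2, ih]
  have h3 : q - C (q.eval 0) = 0 := by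
    refine eq_zero_of_infinite_isRoot _ ?_
    refine Set.Infinite.mono (s := Set.range fun n : ℕ => (n : F)) ?_ (Set.infinite_range_of_injective Nat.cast_injective)
    rintro _ ⟨n, rfl⟩
    show (q - C (q.eval 0)).eval (n : F) = 0
    rw [eval_sub, eval_C, h1, sub_self]
  exact sub_eq_zero.1 h3

theorem shK_const [CharZero F] {h : FractionRing F[X]} (hh : shK F h = h) :
    ∃ b : F, h = algebraMap F[X] (FractionRing F[X]) (C b) := by
  obtain ⟨p, q, hpq, rfl⟩ := IsFractionRing.exists_reduced_fraction (A := F[X]) h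
  have hinj := IsFractionRing.injective F[X] (FractionRing F[X])
  have hne : ∀ P : F[X], P ≠ 0 → algebraMap F[X] (FractionRing F[X]) P ≠ 0 := fun P hP h0 =>
    hP (hinj (h0.trans (map_zero _).symm))
  have hq0 : (q : F[X]) ≠ 0 := nonZeroDivisors.ne_zero q.2
  have hsq := comp_ne_zero' hq0 1
  rw [IsFractionRing.mk'_eq_div, map_div₀, shK_map, shK_map, div_eq_div_iff (hne _ hsq) (hne _ hq0), ← map_mul,
    ← map_mul] at hh
  have h1 := hinj hh
  have h2 : (q : F[X]) ∣ (q : F[X]).comp (X + C 1) := by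
    have h3 : (q : F[X]) ∣ p * (q : F[X]).comp (X + C 1) := ⟨p.comp (X + C 1), by rw [← h1]; ring⟩
    exact (hpq.symm : IsRelPrime (q : F[X]) p).dvd_of_dvd_mul_left h3
  obtain ⟨z, hz⟩ := h2
  have hz0 : z ≠ 0 := by
    rintro rfl
    rw [mul_zero] at hz
    exact hsq hz
  have h4 : z.natDegree = 0 := by
    have h5 := congrArg natDegree hz
    rw [natDegree_mul hq0 hz0, natDegree_comp, natDegree_X_add_C, mul_one] at h5
    omega
  obtain ⟨b, hb⟩ := natDegree_eq_zero.1 h4
  have h6 : b = 1 := by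
    have h7 := congrArg leadingCoeff hz
    rw [leadingCoeff_mul, ← hb, leadingCoeff_C, leadingCoeff_comp (by rw [natDegree_X_add_C]; exact one_ne_zero),
      leadingCoeff_X_add_C, one_pow, mul_one] at h7
    exact (mul_left_cancel₀ (leadingCoeff_ne_zero.2 hq0) (by rw [mul_one]; exact h7)).symm
  have h8 : (q : F[X]).comp (X + C 1) = q := by rw [hz, ← hb, h6, C_1, mul_one]
  obtain ⟨b1, hb1⟩ := shift_const h8
  have h9 : p.comp (X + C 1) = p := by
    rw [h8] at h1
    exact mul_right_cancel₀ hq0 h1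
  obtain ⟨b2, hb2⟩ := shift_const h9
  have hb10 : b1 ≠ 0 := by
    rintro rfl
    rw [C_0] at hb1
    exact hq0 hb1
  refine ⟨b2 / b1, ?_⟩
  rw [IsFractionRing.mk'_eq_div, hb2, hb1, div_eq_iff (hne _ (C_ne_zero.2 hb10)), ← map_mul, ← C_mul, div_mul_cancel₀ _ hb10]

/-- Polynomials independent over the constants: the Casorati vectors are independent. -/
theorem poly_indep [CharZero F] {t : ℕ} (E : Fin t → F[X]) (hE : LinearIndependent F E)
    (c : Fin t → FractionRing F[X])
    (hc : ∀ j < t, ∑ κ, c κ * algebraMap F[X] (FractionRing F[X]) (sh ((j : ℕ) : F) (E κ)) = 0) : c = 0 := by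
  classical
  have hinj := IsFractionRing.injective F[X] (FractionRing F[X])
  have hsh : ∀ (j : ℕ) (P : F[X]), (sh ((j : ℕ) : F) P).comp (X + C 1) = sh ((j + 1 : ℕ) : F) P := by
    intro j P
    have h1 := sh_sh P ((j : ℕ) : F) 1
    rw [show (1 : F) + ((j : ℕ) : F) = ((j + 1 : ℕ) : F) by push_cast; ring] at h1
    exact h1
  suffices H : ∀ (S : Finset (Fin t)) (c : Fin t → FractionRing F[X]),
      (∀ j < S.card, ∑ κ ∈ S, c κ * algebraMap F[X] (FractionRing F[X]) (sh ((j : ℕ) : F) (E κ)) = 0) →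
      ∀ κ ∈ S, c κ = 0 by
    ext1 κ
    exact H univ c (by rw [card_univ, Fintype.card_fin]; exact hc) κ (mem_univ κ)
  intro S
  induction S using Finset.strongInduction with
  | H S ih =>
    intro c hc
    by_contra hne
    push Not at hne
    obtain ⟨κ₀, hκ₀, hc0⟩ := hne
    set S' := S.erase κ₀ with hS'
    have hcard : S'.card + 1 = S.card := Finset.card_erase_add_one hκ₀
    have hsub : S' ⊂ S := Finset.erase_ssubset hκ₀
    have h2 : ∀ j < S.card, ∑ κ ∈ S, shK F (c κ) * algebraMap F[X] (FractionRing F[X]) (sh ((j + 1 : ℕ) : F) (E κ)) = 0 := by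
      intro j hj
      have h3 := congrArg (shK F) (hc j hj)
      rw [map_sum, map_zero] at h3
      rw [← h3]
      refine Finset.sum_congr rfl fun κ hκ => ?_
      rw [map_mul, shK_map, hsh]
    set d : Fin t → FractionRing F[X] := fun κ => shK F (c κ₀) * c κ - c κ₀ * shK F (c κ) with hd
    have hd0 : d κ₀ = 0 := by simp only [hd]; ring
    have h4 : ∀ j < S'.card, ∑ κ ∈ S', d κ * algebraMap F[X] (FractionRing F[X]) (sh ((j + 1 : ℕ) : F) (E κ)) = 0 := by
      intro j hj
      have e1 := hc (j + 1) (by omega)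
      have e2 := h2 j (by omega)
      have e3 : ∑ κ ∈ S, d κ * algebraMap F[X] (FractionRing F[X]) (sh ((j + 1 : ℕ) : F) (E κ)) = 0 := by
        have e4 : ∑ κ ∈ S, d κ * algebraMap F[X] (FractionRing F[X]) (sh ((j + 1 : ℕ) : F) (E κ)) =
            shK F (c κ₀) * ∑ κ ∈ S, c κ * algebraMap F[X] (FractionRing F[X]) (sh ((j + 1 : ℕ) : F) (E κ)) -
              c κ₀ * ∑ κ ∈ S, shK F (c κ) * algebraMap F[X] (FractionRing F[X]) (sh ((j + 1 : ℕ) : F) (E κ)) := by
          rw [Finset.mul_sum, Finset.mul_sum, ← Finset.sum_sub_distrib]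
          refine Finset.sum_congr rfl fun κ _ => ?_
          simp only [hd]
          ring
        rw [e4, e1, e2, mul_zero, mul_zero, sub_zero]
      rw [← Finset.add_sum_erase S _ hκ₀, hd0, zero_mul, zero_add] at e3
      exact e3
    have h5 : ∀ κ ∈ S', (shK F).symm (d κ) = 0 := by
      refine ih S' hsub _ ?_
      intro j hj
      apply (shK F).injective
      rw [map_sum, map_zero, ← h4 j hj]
      refine Finset.sum_congr rfl fun κ _ => ?_
      rw [map_mul, (shK F).apply_symm_apply, shK_map, hsh]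
    have h6 : ∀ κ ∈ S, ∃ b : F, c κ = algebraMap F[X] (FractionRing F[X]) (C b) * c κ₀ := by
      intro κ hκ
      by_cases hκ0 : κ = κ₀
      · exact ⟨1, by rw [hκ0, C_1, map_one, one_mul]⟩
      · have h8 := h5 κ (Finset.mem_erase.2 ⟨hκ0, hκ⟩)
        have h9 : d κ = 0 := by
          apply (shK F).symm.injective
          rw [h8, map_zero]
        have hσ0 : shK F (c κ₀) ≠ 0 := fun h => hc0 ((shK F).injective (h.trans (map_zero _).symm))
        have h10 : shK F (c κ / c κ₀) = c κ / c κ₀ := by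
          rw [map_div₀, div_eq_div_iff hσ0 hc0]
          simp only [hd] at h9
          linear_combination -h9
        obtain ⟨b, hb⟩ := shK_const h10
        exact ⟨b, by rw [← hb, div_mul_cancel₀ _ hc0]⟩
    choose! b hb using h6
    have hb0 : b κ₀ = 1 := by
      have h1 := hb κ₀ hκ₀
      have h2 : algebraMap F[X] (FractionRing F[X]) (C (b κ₀)) = 1 := by
        have h3 : algebraMap F[X] (FractionRing F[X]) (C (b κ₀)) * c κ₀ = 1 * c κ₀ := by rw [one_mul, ← h1]
        exact mul_right_cancel₀ hc0 h3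
      rw [← map_one (algebraMap F[X] (FractionRing F[X]))] at h2
      have h4 := hinj h2
      rw [← C_1] at h4
      exact C_injective h4
    have h10 := hc 0 (Finset.card_pos.2 ⟨κ₀, hκ₀⟩)
    have h11 : ∑ κ ∈ S, b κ • E κ = 0 := by
      apply hinj
      have h12 : algebraMap F[X] (FractionRing F[X]) (∑ κ ∈ S, b κ • E κ) * c κ₀ =
          ∑ κ ∈ S, c κ * algebraMap F[X] (FractionRing F[X]) (sh ((0 : ℕ) : F) (E κ)) := by
        rw [map_sum, sum_mul]
        refine sum_congr rfl fun κ hκ => ?_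
        rw [hb κ hκ, smul_eq_C_mul, map_mul, sh, Nat.cast_zero, C_0, add_zero, comp_X]
        ring
      rw [h10] at h12
      rw [map_zero]
      exact (mul_eq_zero.1 h12).resolve_right hc0
    have h13 := linearIndependent_iff'.1 hE S b h11 κ₀ hκ₀
    rw [hb0] at h13
    exact one_ne_zero h13

/-- A kernel vector of the bordered Casorati matrix solves the telescoping equation. -/
theorem tele_of_kernel [CharZero F] {t : ℕ} (E : Fin t → F[X]) (hE : LinearIndependent F E)
    (ρ : Fin t → FractionRing F[X]) (rs : Fin t → ℕ → FractionRing F[X])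
    (hrs : ∀ k i, rs k (i + 1) = ρ k + shK F (rs k i))
    (x : Fin t → FractionRing F[X]) (x0 : FractionRing F[X]) (hx : x ≠ 0 ∨ x0 ≠ 0)
    (h : ∀ i ≤ t, ∑ k, algebraMap F[X] (FractionRing F[X]) (sh ((i : ℕ) : F) (E k)) * (x k + x0 * rs k i) = 0) :
    ∀ k, ∃ y : FractionRing F[X], shK F y - y = ρ k := by
  have hsh : ∀ (j : ℕ) (P : F[X]), shK F (algebraMap F[X] (FractionRing F[X]) (sh ((j : ℕ) : F) P)) =
      algebraMap F[X] (FractionRing F[X]) (sh ((j + 1 : ℕ) : F) P) := by
    intro j P
    have h1 := sh_sh P ((j : ℕ) : F) 1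
    rw [show (1 : F) + ((j : ℕ) : F) = ((j + 1 : ℕ) : F) by push_cast; ring] at h1
    rw [shK_map]
    exact congrArg _ h1
  -- `x0` is not zero: row `0` to `t - 1`
  have hx0 : x0 ≠ 0 := by
    intro h0
    have h1 : x = 0 := by
      refine poly_indep E hE x fun j hj => ?_
      have h2 := h j hj.le
      rw [← h2]
      refine sum_congr rfl fun k _ => ?_
      rw [h0, zero_mul, add_zero, mul_comm]
    rcases hx with hx | hx
    · exact hx h1
    · exact hx h0
  intro k
  have hrow : ∀ i ≤ t, ∑ k, algebraMap F[X] (FractionRing F[X]) (sh ((i : ℕ) : F) (E k)) * (x k / x0 + rs k i) = 0 := by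
    intro i hi
    have h1 : ∑ k, algebraMap F[X] (FractionRing F[X]) (sh ((i : ℕ) : F) (E k)) * (x k / x0 + rs k i) =
        x0⁻¹ * ∑ k, algebraMap F[X] (FractionRing F[X]) (sh ((i : ℕ) : F) (E k)) * (x k + x0 * rs k i) := by
      rw [mul_sum]
      refine sum_congr rfl fun k _ => ?_
      field_simp
    rw [h1, h i hi, mul_zero]
  have hz : (fun k => (shK F).symm (shK F (x k / x0) - x k / x0 - ρ k)) = 0 := by
    refine poly_indep E hE _ fun j hj => ?_
    apply (shK F).injective
    rw [map_sum, map_zero]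
    have h1 := congrArg (shK F) (hrow j hj.le)
    rw [map_sum, map_zero] at h1
    have h2 := hrow (j + 1) (by omega)
    have h3 : ∑ k, algebraMap F[X] (FractionRing F[X]) (sh ((j + 1 : ℕ) : F) (E k)) * (shK F (x k / x0) + shK F (rs k j)) -
        ∑ k, algebraMap F[X] (FractionRing F[X]) (sh ((j + 1 : ℕ) : F) (E k)) * (x k / x0 + rs k (j + 1)) = 0 := by
      rw [h2, sub_zero, ← h1]
      refine sum_congr rfl fun k _ => ?_
      rw [map_mul, hsh, map_add]
    rw [← h3, ← sum_sub_distrib]
    refine sum_congr rfl fun k _ => ?_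
    rw [map_mul, (shK F).apply_symm_apply, hsh, hrs]
    ring
  refine ⟨x k / x0, ?_⟩
  have h1 : shK F (x k / x0) - x k / x0 - ρ k = 0 := by
    apply (shK F).symm.injective
    rw [map_zero]
    exact congrFun hz k
  exact sub_eq_zero.1 h1

/-! ### The bordered Casorati matrix -/

section Bord

variable {t : ℕ} {ι : Type*} [Fintype ι] [DecidableEq ι] (E : Fin t → F[X]) (β : Fin t → ι → F) (num den : ι → F[X])

/-- The common denominator. -/
def bQ (t : ℕ) {ι : Type*} [Fintype ι] [DecidableEq ι] (den : ι → F[X]) (b : F) : F[X] :=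
  ∏ q ∈ (univ : Finset ι) ×ˢ range t, sh (b + (q.2 : ℕ)) (den q.1)

/-- The common denominator without one factor. -/
def bE (t : ℕ) {ι : Type*} [Fintype ι] [DecidableEq ι] (den : ι → F[X]) (b : F) (c : ι) (j : ℕ) : F[X] :=
  ∏ q ∈ ((univ : Finset ι) ×ˢ range t).erase (c, j), sh (b + (q.2 : ℕ)) (den q.1)

theorem bQ_eq (b : F) (c : ι) {j : ℕ} (hj : j < t) : bQ t den b = sh (b + (j : ℕ)) (den c) * bE t den b c j := by
  have h1 : (c, j) ∈ (univ : Finset ι) ×ˢ range t := mem_product.2 ⟨mem_univ _, mem_range.2 hj⟩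
  have h2 := mul_prod_erase ((univ : Finset ι) ×ˢ range t) (fun q : ι × ℕ => sh (b + (q.2 : ℕ)) (den q.1)) h1
  unfold bQ bE
  rw [← h2]

/-- The last column. -/
def bN (b : F) (i : ℕ) : F[X] :=
  ∑ k, sh (b + (i : ℕ)) (E k) * ∑ j ∈ range i, ∑ c, C (β k c) * (sh (b + (j : ℕ)) (num c) * bE t den b c j)

/-- The bordered matrix. -/
def bM (b : F) : Matrix (Fin (t + 1)) (Fin (t + 1)) F[X] := fun i =>
  Fin.snoc (α := fun _ => F[X]) (fun k : Fin t => sh (b + (i : ℕ)) (E k)) (bN E β num den b i)

theorem sh_C (a b : F) : sh a (C b) = C b := C_comp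

theorem sh_sum {κ : Type*} (s : Finset κ) (P : κ → F[X]) (a : F) : sh a (∑ i ∈ s, P i) = ∑ i ∈ s, sh a (P i) := by
  unfold sh
  exact Polynomial.sum_comp _ _ _

theorem bN_sh (a : F) (i : ℕ) : sh a (bN E β num den 0 i) = bN E β num den a i := by
  unfold bN bE
  simp only [sh_sum, sh_mul, sh_C, sh_sh, sh_prod, zero_add]

theorem bM_comp (a : F) : (bM E β num den 0).det.comp (X + C a) = (bM E β num den a).det := by
  have h1 : (bM E β num den 0).det.comp (X + C a) = (compRingHom (X + C a)) (bM E β num den 0).det := rfl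
  rw [h1, RingHom.map_det]
  congr 1
  ext1 i k
  show sh a (bM E β num den 0 i k) = bM E β num den a i k
  unfold bM
  refine Fin.lastCases ?_ (fun k => ?_) k
  · rw [Fin.snoc_last, Fin.snoc_last, bN_sh]
  · rw [Fin.snoc_castSucc, Fin.snoc_castSucc, sh_sh, zero_add]

theorem bN_deg {n d : ℕ} (hE : ∀ k, (E k).natDegree < n) (hnd : ∀ c, (num c).natDegree ≤ d)
    (hdd : ∀ c, (den c).natDegree ≤ d) {i : ℕ} (hi : i ≤ t) :
    (bN E β num den 0 i).natDegree ≤ n - 1 + t * Fintype.card ι * d := by
  unfold bN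
  refine natDegree_sum_le_of_forall_le _ _ fun k _ => ?_
  refine natDegree_mul_le.trans (Nat.add_le_add ?_ ?_)
  · rw [sh_deg]
    have := hE k
    omega
  · refine natDegree_sum_le_of_forall_le _ _ fun j hj => ?_
    rw [mem_range] at hj
    refine natDegree_sum_le_of_forall_le _ _ fun c _ => ?_
    refine (natDegree_C_mul_le _ _).trans ?_
    refine natDegree_mul_le.trans ?_
    rw [sh_deg]
    have h1 : (bE t den 0 c j).natDegree ≤ (t * Fintype.card ι - 1) * d := by
      unfold bE
      refine (natDegree_prod_le _ _).trans ?_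
      refine (sum_le_card_nsmul _ _ d fun q _ => ?_).trans ?_
      · rw [sh_deg]
        exact hdd _
      · rw [card_erase_of_mem (mem_product.2 ⟨mem_univ _, mem_range.2 (by omega)⟩), card_product, card_range, card_univ,
          smul_eq_mul, mul_comm (Fintype.card ι) t]
    have h2 : 1 ≤ t * Fintype.card ι := Nat.mul_pos (by omega) (Fintype.card_pos_iff.2 ⟨c⟩)
    calc (num c).natDegree + (bE t den 0 c j).natDegree ≤ d + (t * Fintype.card ι - 1) * d := Nat.add_le_add (hnd c) h1
      _ = (t * Fintype.card ι) * d := by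
        obtain ⟨q, hq⟩ : ∃ q, t * Fintype.card ι = q + 1 := ⟨t * Fintype.card ι - 1, by omega⟩
        rw [hq, Nat.add_sub_cancel]
        ring

theorem bM_deg {n d : ℕ} (hE : ∀ k, (E k).natDegree < n) (hnd : ∀ c, (num c).natDegree ≤ d)
    (hdd : ∀ c, (den c).natDegree ≤ d) :
    (bM E β num den 0).det.natDegree ≤ (t + 1) * (n - 1) + t * Fintype.card ι * d := by
  rw [Matrix.det_apply]
  refine natDegree_sum_le_of_forall_le _ _ fun σ _ => ?_
  refine (natDegree_smul_le _ _).trans ?_
  refine (natDegree_prod_le _ _).trans ?_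
  rw [Fin.sum_univ_castSucc]
  have h1 : ∀ k : Fin t, (bM E β num den 0 (σ k.castSucc) k.castSucc).natDegree ≤ n - 1 := by
    intro k
    unfold bM
    rw [Fin.snoc_castSucc, sh_deg]
    have := hE k
    omega
  have h2 : (bM E β num den 0 (σ (Fin.last t)) (Fin.last t)).natDegree ≤ n - 1 + t * Fintype.card ι * d := by
    unfold bM
    rw [Fin.snoc_last]
    exact bN_deg E β num den hE hnd hdd (by have := (σ (Fin.last t)).isLt; omega)
  have h3 : ∑ k : Fin t, (bM E β num den 0 (σ k.castSucc) k.castSucc).natDegree ≤ t * (n - 1) := by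
    refine (sum_le_card_nsmul _ _ _ fun k _ => h1 k).trans ?_
    rw [card_univ, Fintype.card_fin, smul_eq_mul]
  calc _ ≤ t * (n - 1) + (n - 1 + t * Fintype.card ι * d) := Nat.add_le_add h3 h2
    _ = (t + 1) * (n - 1) + t * Fintype.card ι * d := by ring

end Bord

end Pool.Agent.H83.FD
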