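import Pool.Agent.H83.FD.Add

/-!
# FD AddMain: the additive zero estimate, assembly
-/

set_option autoImplicit false

noncomputable section

open Polynomial Finset

namespace Pool.Agent.H83.FD

variable {F : Type*} [Field F]

/-- Polynomials as power series. -/
def kp (F : Type*) [Field F] : F[X] →+* PowerSeries F := coeToPowerSeries.ringHom

theorem kp_apply (P : F[X]) : kp F P = (P : PowerSeries F) := rfl

theorem kp_dvd {P : F[X]} {W : ℕ} (h : (PowerSeries.X : PowerSeries F) ^ W ∣ kp F P) : X ^ W ∣ P := by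
  rw [X_pow_dvd_iff]
  intro d hd
  have h1 := PowerSeries.X_pow_dvd_iff.1 h d hd
  rwa [kp_apply, coeff_coe] at h1

section Bord

variable {t : ℕ} {ι : Type*} [Fintype ι] [DecidableEq ι] (E : Fin t → F[X]) (β : Fin t → ι → F) (num den : ι → F[X])

/-- The last column in the power series ring. -/
theorem bN_tele (R : ι → ℕ → PowerSeries F) {m : ℕ}
    (hR : ∀ c a, a + 1 < m → kp F (sh (a : F) (den c)) * (R c (a + 1) - R c a) = kp F (sh (a : F) (num c)))
    {a i : ℕ} (hi : i ≤ t) (ha : a + i < m) :
    kp F (bN E β num den (a : F) i) = kp F (bQ t den (a : F)) * ∑ k, kp F (sh ((a : F) + (i : ℕ)) (E k)) *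
      ∑ c, kp F (C (β k c)) * (R c (a + i) - R c a) := by
  unfold bN
  rw [map_sum, mul_sum]
  refine sum_congr rfl fun k _ => ?_
  rw [map_mul, map_sum]
  have h1 : ∀ j ∈ range i, kp F (∑ c, C (β k c) * (sh ((a : F) + (j : ℕ)) (num c) * bE t den (a : F) c j)) =
      kp F (bQ t den (a : F)) * ∑ c, kp F (C (β k c)) * (R c (a + (j + 1)) - R c (a + j)) := by
    intro j hj
    rw [mem_range] at hj
    rw [map_sum, mul_sum]
    refine sum_congr rfl fun c _ => ?_
    have h2 := hR c (a + j) (by omega)
    push_cast at h2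
    rw [bQ_eq den (a : F) c (by omega : j < t), map_mul, map_mul, map_mul, ← add_assoc a j 1]
    linear_combination (-(kp F (C (β k c)) * kp F (bE t den (a : F) c j))) * h2
  rw [sum_congr rfl h1, ← mul_sum, sum_comm]
  have h3 : ∀ c, ∑ j ∈ range i, kp F (C (β k c)) * (R c (a + (j + 1)) - R c (a + j)) =
      kp F (C (β k c)) * (R c (a + i) - R c a) := by
    intro c
    rw [← mul_sum, Finset.sum_range_sub (fun j => R c (a + j)), add_zero]
  rw [sum_congr rfl fun c _ => h3 c]
  ring

/-- Vanishing of the bordered determinant at the node `a`. -/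
theorem bM_order (R : ι → ℕ → PowerSeries F) {m W : ℕ}
    (hR : ∀ c a, a + 1 < m → kp F (sh (a : F) (den c)) * (R c (a + 1) - R c a) = kp F (sh (a : F) (num c)))
    (g : Fin t → PowerSeries F)
    (hz : ∀ a < m, (PowerSeries.X : PowerSeries F) ^ W ∣
      ∑ k, kp F (sh (a : F) (E k)) * (g k + ∑ c, kp F (C (β k c)) * R c a)) {a : ℕ} (ha : a + t < m) :
    X ^ W ∣ (bM E β num den (a : F)).det := by
  apply kp_dvd
  set M := (kp F).mapMatrix (bM E β num den (a : F)) with hM
  rw [RingHom.map_det, ← hM]
  set v : Fin (t + 1) → PowerSeries F :=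
    Fin.snoc (α := fun _ => PowerSeries F) (fun k : Fin t => kp F (bQ t den (a : F)) *
      (g k + ∑ c, kp F (C (β k c)) * R c a)) 1 with hv
  have hrow : ∀ i, (PowerSeries.X : PowerSeries F) ^ W ∣ M.mulVec v i := by
    intro i
    have hi := i.isLt
    have h1 : M.mulVec v i = kp F (bQ t den (a : F)) * ∑ k, kp F (sh ((a + (i : ℕ) : ℕ) : F) (E k)) *
        (g k + ∑ c, kp F (C (β k c)) * R c (a + i)) := by
      rw [Matrix.mulVec, dotProduct, Fin.sum_univ_castSucc]
      have h2 : ∀ k : Fin t, M i k.castSucc * v k.castSucc = kp F (sh ((a : F) + (i : ℕ)) (E k)) *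
          (kp F (bQ t den (a : F)) * (g k + ∑ c, kp F (C (β k c)) * R c a)) := by
        intro k
        have h3 : M i k.castSucc = kp F (sh ((a : F) + (i : ℕ)) (E k)) := by
          show kp F (bM E β num den (a : F) i k.castSucc) = _
          unfold bM
          rw [Fin.snoc_castSucc]
        have h4 : v k.castSucc = kp F (bQ t den (a : F)) * (g k + ∑ c, kp F (C (β k c)) * R c a) := by
          rw [hv, Fin.snoc_castSucc]
        rw [h3, h4]
      have h5 : M i (Fin.last t) * v (Fin.last t) = kp F (bN E β num den (a : F) i) := by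
        have h3 : M i (Fin.last t) = kp F (bN E β num den (a : F) i) := by
          show kp F (bM E β num den (a : F) i (Fin.last t)) = _
          unfold bM
          rw [Fin.snoc_last]
        have h4 : v (Fin.last t) = 1 := by rw [hv, Fin.snoc_last]
        rw [h3, h4, mul_one]
      rw [sum_congr rfl fun k _ => h2 k, h5, bN_tele E β num den R hR (by omega) (by omega), mul_sum, mul_sum,
        ← sum_add_distrib]
      refine sum_congr rfl fun k _ => ?_
      have h6 : ∑ c, kp F (C (β k c)) * (R c (a + i) - R c a) =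
          ∑ c, kp F (C (β k c)) * R c (a + i) - ∑ c, kp F (C (β k c)) * R c a := by
        rw [← sum_sub_distrib]
        exact sum_congr rfl fun c _ => by ring
      rw [h6]
      push_cast
      ring
    rw [h1]
    exact (hz (a + i) (by omega)).mul_left _
  have h1 : M.det * v (Fin.last t) = ∑ j, M.adjugate (Fin.last t) j * M.mulVec v j := by
    have h2 : M.adjugate.mulVec (M.mulVec v) (Fin.last t) = M.det * v (Fin.last t) := by
      rw [Matrix.mulVec_mulVec, Matrix.adjugate_mul, Matrix.smul_mulVec, Matrix.one_mulVec]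
      rfl
    rw [← h2]
    rfl
  have h4 : v (Fin.last t) = 1 := by rw [hv, Fin.snoc_last]
  rw [h4, mul_one] at h1
  rw [h1]
  exact dvd_sum fun j _ => (hrow j).mul_left _

/-- The bordered determinant is `0`. -/
theorem bM_zero [CharZero F] (R : ι → ℕ → PowerSeries F) {m W n d : ℕ}
    (hE : ∀ k, (E k).natDegree < n) (hnd : ∀ c, (num c).natDegree ≤ d) (hdd : ∀ c, (den c).natDegree ≤ d)
    (hR : ∀ c a, a + 1 < m → kp F (sh (a : F) (den c)) * (R c (a + 1) - R c a) = kp F (sh (a : F) (num c)))
    (g : Fin t → PowerSeries F)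
    (hz : ∀ a < m, (PowerSeries.X : PowerSeries F) ^ W ∣
      ∑ k, kp F (sh (a : F) (E k)) * (g k + ∑ c, kp F (C (β k c)) * R c a))
    (hcount : (t + 1) * (n - 1) + t * Fintype.card ι * d < (m - t) * W) :
    (bM E β num den 0).det = 0 := by
  classical
  by_contra hD0
  set D := (bM E β num den 0).det with hD
  have h1 : ∀ a ∈ range (m - t), W ≤ D.roots.count (a : F) := by
    intro a ha
    rw [mem_range] at ha
    rw [count_roots, le_rootMultiplicity_iff hD0]
    have h2 := bM_order E β num den R hR g hz (a := a) (by omega)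
    rw [← bM_comp, ← hD] at h2
    obtain ⟨q, hq⟩ := h2
    have h4 : (D.comp (X + C (a : F))).comp (X + C (-(a : F))) = D := by
      rw [comp_add_comp, neg_add_cancel, C_0, add_zero, comp_X]
    rw [hq, mul_comp, pow_comp, X_comp, C_neg, ← sub_eq_add_neg] at h4
    exact ⟨_, h4.symm⟩
  have h5 : (m - t) * W ≤ D.natDegree := by
    calc (m - t) * W = ∑ _a ∈ range (m - t), W := by rw [sum_const, card_range, smul_eq_mul]
      _ ≤ ∑ a ∈ range (m - t), D.roots.count (a : F) := sum_le_sum h1
      _ = ∑ x ∈ (range (m - t)).map ⟨fun a : ℕ => (a : F), Nat.cast_injective⟩, D.roots.count x := by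
          rw [sum_map]
          rfl
      _ ≤ D.roots.card := sum_count_le _
      _ ≤ D.natDegree := card_roots' D
  have h6 := bM_deg E β num den hE hnd hdd
  rw [← hD] at h6
  omega

/-- The telescoping equations. -/
theorem tele_of_det [CharZero F] (hEi : LinearIndependent F E) (hden : ∀ c, den c ≠ 0)
    (hdet : (bM E β num den 0).det = 0) (k : Fin t) :
    ∃ y : FractionRing F[X], shK F y - y = ∑ c, algebraMap F[X] (FractionRing F[X]) (C (β k c)) *
      (algebraMap F[X] (FractionRing F[X]) (num c) / algebraMap F[X] (FractionRing F[X]) (den c)) := by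
  have hinj := IsFractionRing.injective F[X] (FractionRing F[X])
  set φ := algebraMap F[X] (FractionRing F[X]) with hφ
  have hne : ∀ P : F[X], P ≠ 0 → φ P ≠ 0 := fun P hP h0 => hP (hinj (h0.trans (map_zero _).symm))
  obtain ⟨x, hx0, hx⟩ := Matrix.exists_mulVec_eq_zero_iff.2 hdet
  have hQ : φ (bQ t den 0) ≠ 0 := hne _ (prod_ne_zero_iff.2 fun q _ => sh_ne (hden _) _)
  refine tele_of_kernel E hEi (fun k => ∑ c, φ (C (β k c)) * (φ (num c) / φ (den c)))
    (fun k i => ∑ j ∈ range i, ∑ c, φ (C (β k c)) * (φ (sh ((j : ℕ) : F) (num c)) / φ (sh ((j : ℕ) : F) (den c)))) ?_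
    (fun k => φ (x k.castSucc)) (φ (x (Fin.last t)) * φ (bQ t den 0)) ?_ ?_ k
  · intro k i
    have h1 : ∀ (j : ℕ) (P : F[X]), shK F (φ (sh ((j : ℕ) : F) P)) = φ (sh ((j + 1 : ℕ) : F) P) := by
      intro j P
      have h1 := sh_sh P ((j : ℕ) : F) 1
      rw [show (1 : F) + ((j : ℕ) : F) = ((j + 1 : ℕ) : F) by push_cast; ring] at h1
      rw [hφ, shK_map]
      exact congrArg _ h1
    rw [sum_range_succ', add_comm, map_sum]
    congr 1
    · refine sum_congr rfl fun c _ => ?_
      rw [Nat.cast_zero, sh, sh, C_0, add_zero, comp_X, comp_X]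
    · refine sum_congr rfl fun j _ => ?_
      rw [map_sum]
      refine sum_congr rfl fun c _ => ?_
      rw [map_mul, map_div₀, h1, h1, hφ, shK_map, C_comp]
  · by_contra hcon
    push Not at hcon
    apply hx0
    ext1 i
    refine Fin.lastCases ?_ (fun k => ?_) i
    · exact hinj (((mul_eq_zero.1 hcon.2).resolve_right hQ).trans (map_zero _).symm)
    · exact hinj ((congrFun hcon.1 k).trans (map_zero _).symm)
  · intro i hi
    have h1 := congrArg φ (congrFun hx ⟨i, by omega⟩)
    rw [Pi.zero_apply, map_zero, Matrix.mulVec, dotProduct, Fin.sum_univ_castSucc, map_add, map_sum] at h1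
    have h2 : φ (bM E β num den 0 ⟨i, by omega⟩ (Fin.last t) * x (Fin.last t)) =
        ∑ k, φ (sh ((i : ℕ) : F) (E k)) * (φ (x (Fin.last t)) * φ (bQ t den 0) *
          ∑ j ∈ range i, ∑ c, φ (C (β k c)) * (φ (sh ((j : ℕ) : F) (num c)) / φ (sh ((j : ℕ) : F) (den c)))) := by
      have h3 : bM E β num den 0 ⟨i, by omega⟩ (Fin.last t) = bN E β num den 0 i := by
        unfold bM
        rw [Fin.snoc_last]
      rw [h3, map_mul]
      unfold bN
      rw [map_sum, sum_mul]
      refine sum_congr rfl fun k _ => ?_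
      rw [map_mul, map_sum, zero_add]
      have h4 : ∀ j ∈ range i, φ (∑ c, C (β k c) * (sh ((0 : F) + (j : ℕ)) (num c) * bE t den 0 c j)) =
          φ (bQ t den 0) * ∑ c, φ (C (β k c)) * (φ (sh ((j : ℕ) : F) (num c)) / φ (sh ((j : ℕ) : F) (den c))) := by
        intro j hj
        rw [mem_range] at hj
        rw [map_sum, mul_sum]
        refine sum_congr rfl fun c _ => ?_
        have h5 := hne _ (sh_ne (hden c) ((j : ℕ) : F))
        rw [bQ_eq den 0 c (by omega : j < t), map_mul, map_mul, map_mul, zero_add]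
        field_simp
      rw [sum_congr rfl h4, ← mul_sum]
      ring
    rw [h2, ← sum_add_distrib] at h1
    rw [← h1]
    refine sum_congr rfl fun k _ => ?_
    have h3 : bM E β num den 0 ⟨i, by omega⟩ k.castSucc = sh ((i : ℕ) : F) (E k) := by
      unfold bM
      rw [Fin.snoc_castSucc, zero_add]
    rw [h3, map_mul]
    ring

end Bord

end Pool.Agent.H83.FD
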