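import Mathlib

/-!
# FD Cas: linear independence of finitely many hypergeometric terms

`K` a field with an automorphism `σ` (in the application `K = F(x)`, `σ : x -> x + 1`).  The hypergeometric term `κ` is
`A κ * U κ` with `U κ (x + 1) = r κ * U κ (x)`; `casW σ (A κ) (r κ) j = r κ * σ (casW ... (j - 1))` is its `j`-th shift divided by
`U κ`.  If no quotient `r κ / r κ'` (`κ ≠ κ'`) has the form `σ h / h`, the vectors `(casW ... j)_(j < card S)`, `κ ∈ S`, are
linearly independent over `K`.
-/

set_option autoImplicit false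

namespace Pool.Agent.H83.FD

variable {K : Type*} [Field K] {ι : Type*}

/-- The shifts of the hypergeometric term with start `A` and ratio `r`, divided by the term. -/
def casW (σ : K ≃+* K) (A r : K) : ℕ → K
  | 0 => A
  | j + 1 => r * σ (casW σ A r j)

theorem casW_zero (σ : K ≃+* K) (A r : K) : casW σ A r 0 = A := rfl

theorem casW_succ (σ : K ≃+* K) (A r : K) (j : ℕ) : casW σ A r (j + 1) = r * σ (casW σ A r j) := rfl

/-- Casorati: linear independence of pairwise not similar hypergeometric terms. -/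
theorem cas_indep (σ : K ≃+* K) (A r : ι → K) (S : Finset ι) (hA : ∀ κ ∈ S, A κ ≠ 0) (hr : ∀ κ ∈ S, r κ ≠ 0)
    (hs : ∀ κ ∈ S, ∀ κ' ∈ S, κ ≠ κ' → ∀ h : K, h ≠ 0 → r κ * h ≠ r κ' * σ h)
    (c : ι → K) (hc : ∀ j < S.card, ∑ κ ∈ S, c κ * casW σ (A κ) (r κ) j = 0) : ∀ κ ∈ S, c κ = 0 := by
  classical
  induction S using Finset.strongInduction generalizing c with
  | H S ih =>
    by_contra hne
    push Not at hne
    obtain ⟨κ₀, hκ₀, hc0⟩ := hne
    set S' := S.erase κ₀ with hS'
    have hcard : S'.card + 1 = S.card := Finset.card_erase_add_one hκ₀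
    have hsub : S' ⊂ S := Finset.erase_ssubset hκ₀
    -- the second relation
    have h2 : ∀ j < S.card, ∑ κ ∈ S, (σ (c κ) / r κ) * casW σ (A κ) (r κ) (j + 1) = 0 := by
      intro j hj
      have h3 := congrArg σ (hc j hj)
      rw [map_sum, map_zero] at h3
      rw [← h3]
      refine Finset.sum_congr rfl fun κ hκ => ?_
      have := hr κ hκ
      rw [casW_succ, map_mul]
      field_simp
    -- the combination without `κ₀`
    set d : ι → K := fun κ => (σ (c κ₀) / r κ₀) * c κ - c κ₀ * (σ (c κ) / r κ) with hd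
    have hd0 : d κ₀ = 0 := by simp only [hd]; ring
    have h4 : ∀ j < S'.card, ∑ κ ∈ S', d κ * casW σ (A κ) (r κ) (j + 1) = 0 := by
      intro j hj
      have e1 := hc (j + 1) (by omega)
      have e2 := h2 j (by omega)
      have e3 : ∑ κ ∈ S, d κ * casW σ (A κ) (r κ) (j + 1) = 0 := by
        have e4 : ∑ κ ∈ S, d κ * casW σ (A κ) (r κ) (j + 1) =
            (σ (c κ₀) / r κ₀) * ∑ κ ∈ S, c κ * casW σ (A κ) (r κ) (j + 1) -
              c κ₀ * ∑ κ ∈ S, (σ (c κ) / r κ) * casW σ (A κ) (r κ) (j + 1) := by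
          rw [Finset.mul_sum, Finset.mul_sum, ← Finset.sum_sub_distrib]
          refine Finset.sum_congr rfl fun κ _ => ?_
          simp only [hd]
          ring
        rw [e4, e1, e2, mul_zero, mul_zero, sub_zero]
      rw [← Finset.add_sum_erase S _ hκ₀, hd0, zero_mul, zero_add] at e3
      exact e3
    have h5 : ∀ κ ∈ S', σ.symm (d κ * r κ) = 0 := by
      refine ih S' hsub (fun κ hκ => hA κ (Finset.mem_of_mem_erase hκ)) (fun κ hκ => hr κ (Finset.mem_of_mem_erase hκ))
        (fun κ hκ κ' hκ' => hs κ (Finset.mem_of_mem_erase hκ) κ' (Finset.mem_of_mem_erase hκ')) _ ?_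
      intro j hj
      apply σ.injective
      rw [map_sum, map_zero, ← h4 j hj]
      refine Finset.sum_congr rfl fun κ _ => ?_
      rw [map_mul, σ.apply_symm_apply, casW_succ]
      ring
    have h6 : ∀ κ ∈ S', c κ = 0 := by
      intro κ hκ
      by_contra hcκ
      have hκS := Finset.mem_of_mem_erase hκ
      have hκne : κ ≠ κ₀ := Finset.ne_of_mem_erase hκ
      have h7 : d κ = 0 := by
        have h8 := h5 κ hκ
        have h9 : d κ * r κ = 0 := by
          apply σ.symm.injective
          rw [h8, map_zero]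
        exact (mul_eq_zero.1 h9).resolve_right (hr κ hκS)
      have hr0 := hr κ₀ hκ₀
      have hrκ := hr κ hκS
      have hσ0 : σ (c κ₀) ≠ 0 := fun h => hc0 (σ.injective (h.trans (map_zero σ).symm))
      refine hs κ hκS κ₀ hκ₀ hκne (c κ / c κ₀) (div_ne_zero hcκ hc0) ?_
      rw [map_div₀]
      simp only [hd] at h7
      field_simp at h7 ⊢
      linear_combination h7
    have h10 := hc 0 (Finset.card_pos.2 ⟨κ₀, hκ₀⟩)
    rw [← Finset.add_sum_erase S _ hκ₀, Finset.sum_eq_zero (fun κ hκ => by rw [h6 κ hκ, zero_mul]), add_zero,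
      casW_zero] at h10
    exact (mul_ne_zero hc0 (hA κ₀ hκ₀)) h10

end Pool.Agent.H83.FD
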